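import Pool.Agent.Helper95.FL.Stmts2

set_option autoImplicit false

/-!
# XT-C8: the halving perturbation on the complex of a group
-/

namespace Pool.Agent.Helper83.FL

open Pool.Agent.Helper95.FL
open scoped Classical

theorem stFlip (hH : StHalve) : StFlip := by
  intro G _ U H m k hgeo hk x₀ η
  obtain ⟨D, hD1, hD2, hD3, hD4⟩ := hH G U m k hgeo.girth hk η
  -- equality of edges
  have hedge : ∀ (s s' : Fin 3) (g g' : G), (grpCx H).edge s g = (grpCx H).edge s' g' →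
      s = s' ∧ g⁻¹ * g' ∈ U s := by
    intro s s' g g' he
    have h1 : (grpCx H).vert (s + 1) g = (grpCx H).vert (s' + 1) g' := congrArg Prod.fst he
    have h2 : (grpCx H).vert (s + 2) g = (grpCx H).vert (s' + 2) g' := congrArg Prod.snd he
    have hs : s = s' := by
      have h3 : s + 1 = s' + 1 := congrArg Sigma.fst h1
      exact add_right_cancel h3
    subst hs
    refine ⟨rfl, ?_⟩
    have h4 : (g : G ⧸ H (s + 1)) = (g' : G ⧸ H (s + 1)) := eq_of_heq (Sigma.mk.inj h1).2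
    have h5 : (g : G ⧸ H (s + 2)) = (g' : G ⧸ H (s + 2)) := eq_of_heq (Sigma.mk.inj h2).2
    rw [QuotientGroup.eq] at h4 h5
    have h6' : ∀ t : Fin 3, t + 1 ≠ t + 2 ∧ t + 1 ≠ t ∧ t + 2 ≠ t := by decide
    have h6 := h6' s
    rw [← hgeo.inter (s + 1) (s + 2) s h6.1 h6.2.1 h6.2.2]
    exact ⟨h4, h5⟩
  let δ : (Σ t : Fin 3, G ⧸ H t) × (Σ t : Fin 3, G ⧸ H t) → ℤ := fun e =>
    if h : ∃ p : Fin 3 × G, (grpCx H).edge p.1 p.2 = e then D (x₀⁻¹ * h.choose.2) h.choose.1 else 0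
  have hδ : ∀ s g, δ ((grpCx H).edge s g) = D (x₀⁻¹ * g) s := by
    intro s g
    have hex : ∃ p : Fin 3 × G, (grpCx H).edge p.1 p.2 = (grpCx H).edge s g := ⟨(s, g), rfl⟩
    have h1 : δ ((grpCx H).edge s g) = D (x₀⁻¹ * hex.choose.2) hex.choose.1 := dif_pos hex
    rw [h1]
    have h2 := hex.choose_spec
    obtain ⟨h3, h4⟩ := hedge _ _ _ _ h2
    have h5 := hD1 (x₀⁻¹ * hex.choose.2) hex.choose.1 _ h4
    rw [mul_assoc, mul_inv_cancel_left] at h5
    rw [← h5, h3]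
  have hh : ∀ x, (grpCx H).h δ x = ∑ s, D (x₀⁻¹ * x) s := by
    intro x
    unfold Cx.h
    exact Finset.sum_congr rfl fun s _ => hδ s x
  refine ⟨δ, ?_, ?_, ?_⟩
  · rw [hh, inv_mul_cancel]
    exact hD2
  · intro x hx
    rw [hh]
    refine hD3 _ ?_
    intro h
    apply hx
    rw [inv_mul_eq_one] at h
    exact h.symm
  · intro e
    by_cases h : ∃ p : Fin 3 × G, (grpCx H).edge p.1 p.2 = e
    · obtain ⟨p, rfl⟩ := h
      rw [hδ]
      exact hD4 _ _
    · have h1 : δ e = 0 := dif_neg h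
      rw [h1, abs_zero]
      positivity

end Pool.Agent.Helper83.FL
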